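import Pool.Agent.H422R3.Rig.Decomp

/-!
Block matrices whose blocks are group matrices of an elementary abelian 2-group.
-/

namespace Pool.Agent.H422R3.Rig

open Finset symmDiff Kronecker

variable {k : ℕ} {K : Type*} [Field K] {M : Type*} [Fintype M] [DecidableEq M]

/-- the Walsh-Hadamard matrix as a matrix -/
def HM (K : Type*) [Field K] (k : ℕ) : Matrix (Finset (Fin k)) (Finset (Fin k)) K :=
  fun s t => hd K s t

lemma HM_mul (K : Type*) [Field K] (k : ℕ) :
    HM K k * HM K k = (2 ^ k : K) • (1 : Matrix (Finset (Fin k)) (Finset (Fin k)) K) := by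
  ext s t
  rw [Matrix.mul_apply, Matrix.smul_apply, Matrix.one_apply]
  have h1 : ∑ z, HM K k s z * HM K k z t = ∑ z, hd K z (s ∆ t) := by
    refine Finset.sum_congr rfl fun z _ => ?_
    unfold HM
    rw [hd_symm, hd_comm K s z]
  rw [h1, hd_sum]
  by_cases h : s = t
  · subst h; simp
  · rw [if_neg, if_neg h, smul_zero]
    intro h'
    rw [← Finset.bot_eq_empty, symmDiff_eq_bot] at h'
    exact h h'

/-- diagonal blocks -/
def DM (A : Matrix (M × Finset (Fin k)) (M × Finset (Fin k)) K) :
    Matrix (M × Finset (Fin k)) (M × Finset (Fin k)) K :=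
  fun p q => if p.2 = q.2 then ∑ u, A (p.1, ∅) (q.1, u) * hd K u q.2 else 0

lemma diagonalise (A : Matrix (M × Finset (Fin k)) (M × Finset (Fin k)) K)
    (hA : ∀ i j s t z, A (i, s ∆ z) (j, t ∆ z) = A (i, s) (j, t)) :
    A * ((1 : Matrix M M K) ⊗ₖ HM K k) = ((1 : Matrix M M K) ⊗ₖ HM K k) * DM A := by
  ext ⟨i, s⟩ ⟨j, z⟩
  rw [Matrix.mul_apply, Matrix.mul_apply, Fintype.sum_prod_type, Fintype.sum_prod_type]
  have l1 : ∑ x : M, ∑ y : Finset (Fin k), A (i, s) (x, y) *
      ((1 : Matrix M M K) ⊗ₖ HM K k) (x, y) (j, z) = ∑ y, A (i, s) (j, y) * hd K y z := by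
    rw [Finset.sum_eq_single j]
    · refine Finset.sum_congr rfl fun y _ => ?_
      rw [Matrix.kroneckerMap_apply, Matrix.one_apply_eq, one_mul]; rfl
    · intro x _ hx
      refine Finset.sum_eq_zero fun y _ => ?_
      rw [Matrix.kroneckerMap_apply, Matrix.one_apply_ne hx, zero_mul, mul_zero]
    · intro h; exact absurd (Finset.mem_univ _) h
  have l2 : ∑ x : M, ∑ y : Finset (Fin k), ((1 : Matrix M M K) ⊗ₖ HM K k) (i, s) (x, y) *
      DM A (x, y) (j, z) = hd K s z * ∑ u, A (i, ∅) (j, u) * hd K u z := by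
    rw [Finset.sum_eq_single i]
    · rw [Finset.sum_eq_single z]
      · rw [Matrix.kroneckerMap_apply, Matrix.one_apply_eq, one_mul]
        unfold DM HM
        rw [if_pos rfl]
      · intro y _ hy
        unfold DM
        rw [if_neg hy, mul_zero]
      · intro h; exact absurd (Finset.mem_univ _) h
    · intro x _ hx
      refine Finset.sum_eq_zero fun y _ => ?_
      rw [Matrix.kroneckerMap_apply, Matrix.one_apply_ne (Ne.symm hx), zero_mul, zero_mul]
    · intro h; exact absurd (Finset.mem_univ _) h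
  rw [l1, l2, Finset.mul_sum]
  -- substitution y = u ∆ s
  let e : Finset (Fin k) ≃ Finset (Fin k) := (symmDiff_right_involutive s).toPerm
  rw [← Equiv.sum_comp e]
  refine Finset.sum_congr rfl fun u _ => ?_
  have he : e u = s ∆ u := rfl
  rw [he]
  have h1 : A (i, s) (j, s ∆ u) = A (i, ∅) (j, u) := by
    have := hA i j ∅ u s
    rw [show (∅ : Finset (Fin k)) ∆ s = s by rw [← Finset.bot_eq_empty]; exact bot_symmDiff s,
      symmDiff_comm u s] at this
    exact this
  rw [h1, hd_comm K (s ∆ u) z, hd_symm, hd_comm K z s, hd_comm K z u]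
  ring

/-- number of nonzero entries -/
noncomputable def nnz {I J : Type*} [Fintype I] [Fintype J] (A : Matrix I J K) : ℕ := by
  classical exact ((univ : Finset (I × J)).filter fun p => A p.1 p.2 ≠ 0).card

open Classical in
theorem block (h2 : (2 : K) ≠ 0) (A : Matrix (M × Finset (Fin k)) (M × Finset (Fin k)) K)
    (hA : ∀ i j s t z, A (i, s ∆ z) (j, t ∆ z) = A (i, s) (j, t)) (b : ℕ) (hb : b ≤ k) :
    ∃ R T : Matrix (M × Finset (Fin k)) (M × Finset (Fin k)) K, A = R + T ∧
      R.rank ≤ 2 * (Fintype.card M * (3 * tail k b)) ∧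
      nnz T ≤ Fintype.card M ^ 2 * (2 ^ k * (ball k (3 * b)) ^ 2) := by
  obtain ⟨c, hc⟩ := coeff ((k + b) / 2 - (k - b) / 2) ((k - b) / 2)
  set U := (1 : Matrix M M K) ⊗ₖ UU K k b with hU
  set V := (1 : Matrix M M K) ⊗ₖ VV K k b c with hV
  set S := (1 : Matrix M M K) ⊗ₖ SS K k b c with hS
  set H := (1 : Matrix M M K) ⊗ₖ HM K k with hH
  have h1 : H = U * V + S := by
    rw [hU, hV, hS, hH, ← Matrix.mul_kronecker_mul, Matrix.one_mul, ← Matrix.kronecker_add]
    congr 1
    ext s t
    simp only [Matrix.add_apply, SS, HM]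
    ring
  have hHH : H * H = (2 ^ k : K) • (1 : Matrix (M × Finset (Fin k)) (M × Finset (Fin k)) K) := by
    rw [hH, ← Matrix.mul_kronecker_mul, Matrix.one_mul, HM_mul, Matrix.kronecker_smul,
      Matrix.one_kronecker_one]
  have hAH : A * H = H * DM A := diagonalise A hA
  have h3 : (2 ^ k : K) • A = U * (V * DM A * H) + (S * DM A * U) * V + S * DM A * S := by
    have : (2 ^ k : K) • A = H * DM A * H := by
      rw [← hAH, Matrix.mul_assoc, hHH, Matrix.mul_smul, Matrix.mul_one]
    rw [this]
    conv_lhs => rw [h1]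
    conv_rhs => rw [h1]
    simp only [Matrix.add_mul, Matrix.mul_add, Matrix.mul_assoc]
    abel
  have hk : (2 ^ k : K) ≠ 0 := pow_ne_zero _ h2
  refine ⟨((2 ^ k : K)⁻¹) • (U * (V * DM A * H) + (S * DM A * U) * V),
    ((2 ^ k : K)⁻¹) • (S * DM A * S), ?_, ?_, ?_⟩
  · rw [← smul_add, ← h3, smul_smul, inv_mul_cancel₀ hk, one_smul]
  · have e1 : ((2 ^ k : K)⁻¹) • (U * (V * DM A * H) + (S * DM A * U) * V) =
        Matrix.fromCols U (S * DM A * U) *
          (((2 ^ k : K)⁻¹) • Matrix.fromRows (V * DM A * H) V) := by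
      rw [Matrix.mul_smul, Matrix.fromCols_mul_fromRows]
    rw [e1]
    refine (Matrix.rank_mul_le_left _ _).trans ((Matrix.rank_le_card_width _).trans ?_)
    rw [Fintype.card_sum, Fintype.card_prod, Fintype.card_prod, Fintype.card_fin,
      Fintype.card_coe, card_tailSet]
    omega
  · -- support of the sparse part
    have hsup : ∀ i j s t, (((2 ^ k : K)⁻¹) • (S * DM A * S)) (i, s) (j, t) ≠ 0 →
        ∃ z, SS K k b c s z ≠ 0 ∧ SS K k b c z t ≠ 0 := by
      intro i j s t h
      by_contra hcon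
      push Not at hcon
      apply h
      rw [Matrix.smul_apply, Matrix.mul_apply]
      rw [Finset.sum_eq_zero, smul_zero]
      rintro ⟨j', z⟩ _
      rw [Matrix.mul_apply, Finset.sum_mul]
      refine Finset.sum_eq_zero ?_
      rintro ⟨i', z'⟩ _
      by_cases hz : z' = z
      · subst hz
        by_cases hs : SS K k b c s z' = 0
        · have : S (i, s) (i', z') = 0 := by
            rw [hS, Matrix.kroneckerMap_apply, hs, mul_zero]
          rw [this]; ring
        · have : S (j', z') (j, t) = 0 := by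
            rw [hS, Matrix.kroneckerMap_apply, hcon z' hs, mul_zero]
          rw [this]; ring
      · have : DM A (i', z') (j', z) = 0 := by
          unfold DM; rw [if_neg hz]
        rw [this]; ring
    set B := ball k (3 * b) with hB
    have hrow : ∀ s, ((univ : Finset (Finset (Fin k))).filter
        fun t => ∃ z, SS K k b c s z ≠ 0 ∧ SS K k b c z t ≠ 0).card ≤ B ^ 2 := by
      intro s
      have hsub : ((univ : Finset (Finset (Fin k))).filter
          fun t => ∃ z, SS K k b c s z ≠ 0 ∧ SS K k b c z t ≠ 0) ⊆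
          ((univ : Finset (Finset (Fin k))).filter fun z => SS K k b c s z ≠ 0).biUnion
            (fun z => (univ : Finset (Finset (Fin k))).filter fun t => SS K k b c z t ≠ 0) := by
        intro t ht
        obtain ⟨z, h1, h2⟩ := (Finset.mem_filter.mp ht).2
        exact Finset.mem_biUnion.mpr ⟨z, Finset.mem_filter.mpr ⟨Finset.mem_univ _, h1⟩,
          Finset.mem_filter.mpr ⟨Finset.mem_univ _, h2⟩⟩
      refine (Finset.card_le_card hsub).trans (Finset.card_biUnion_le.trans ?_)
      calc _ ≤ ∑ _z ∈ (univ : Finset (Finset (Fin k))).filter fun z => SS K k b c s z ≠ 0, B :=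
            Finset.sum_le_sum fun z _ => SS_row hb c hc z
        _ = _ := by rw [Finset.sum_const, smul_eq_mul]
        _ ≤ B * B := Nat.mul_le_mul_right _ (SS_row hb c hc s)
        _ = B ^ 2 := by ring
    unfold nnz
    have hsub : ((univ : Finset ((M × Finset (Fin k)) × (M × Finset (Fin k)))).filter fun p =>
        (((2 ^ k : K)⁻¹) • (S * DM A * S)) p.1 p.2 ≠ 0) ⊆
        (univ : Finset (M × M × Finset (Fin k))).biUnion (fun x =>
          ((univ : Finset (Finset (Fin k))).filter
            fun t => ∃ z, SS K k b c x.2.2 z ≠ 0 ∧ SS K k b c z t ≠ 0).image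
              (fun t => ((x.1, x.2.2), (x.2.1, t)))) := by
      rintro ⟨⟨i, s⟩, ⟨j, t⟩⟩ hp
      have := hsup i j s t (Finset.mem_filter.mp hp).2
      exact Finset.mem_biUnion.mpr ⟨(i, j, s), Finset.mem_univ _, Finset.mem_image.mpr
        ⟨t, Finset.mem_filter.mpr ⟨Finset.mem_univ _, this⟩, rfl⟩⟩
    refine (Finset.card_le_card hsub).trans (Finset.card_biUnion_le.trans ?_)
    calc _ ≤ ∑ _x : M × M × Finset (Fin k), B ^ 2 :=
          Finset.sum_le_sum fun x _ => Finset.card_image_le.trans (hrow x.2.2)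
      _ = _ := by
        rw [Finset.sum_const, smul_eq_mul, Finset.card_univ, Fintype.card_prod, Fintype.card_prod,
          Fintype.card_finset, Fintype.card_fin]
        ring

end Pool.Agent.H422R3.Rig
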