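import Pool.Agent.H422R3.Rig.Walsh

/-!
Walsh-Hadamard matrices are a matrix of small rank plus a matrix with few entries in each row.
-/

namespace Pool.Agent.H422R3.Rig

open Finset symmDiff

variable {k : ℕ}

/-- sets far from the middle -/
def tailSet (k b : ℕ) : Finset (Finset (Fin k)) :=
  (univ : Finset (Finset (Fin k))).filter fun s => (b : ℤ) ≤ |(k : ℤ) - 2 * (s.card : ℤ)|

lemma card_tailSet (k b : ℕ) : (tailSet k b).card = tail k b := rfl

/-- sets near the middle -/
def Good (b : ℕ) (s : Finset (Fin k)) : Prop := |(k : ℤ) - 2 * (s.card : ℤ)| ≤ b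

instance (b : ℕ) (s : Finset (Fin k)) : Decidable (Good b s) := by unfold Good; infer_instance

lemma not_good_mem {b : ℕ} {s : Finset (Fin k)} (h : ¬ Good b s) : s ∈ tailSet k b := by
  unfold Good at h
  exact Finset.mem_filter.mpr ⟨Finset.mem_univ _, (not_le.mp h).le⟩

lemma small_mem {b : ℕ} (hb : b ≤ k) {s : Finset (Fin k)} (h : s.card ≤ (k - b) / 2) :
    s ∈ tailSet k b := by
  refine Finset.mem_filter.mpr ⟨Finset.mem_univ _, ?_⟩
  refine le_trans ?_ (le_abs_self _)
  have : 2 * s.card ≤ k - b := by omega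
  omega

variable {K : Type*} [Field K]

/-- left factor -/
def UU (K : Type*) [Field K] (k b : ℕ) :
    Matrix (Finset (Fin k)) (Fin 3 × {S // S ∈ tailSet k b}) K := fun s p =>
  if p.1 = 0 then (if Good b s ∧ p.2.1 ⊆ s then 1 else 0)
  else if p.1 = 1 then (if ¬ Good b s ∧ p.2.1 = s then 1 else 0)
  else (if Good b s ∧ ¬ Good b p.2.1 then hd K s p.2.1 else 0)

/-- right factor -/
def VV (K : Type*) [Field K] (k b : ℕ) (c : ℕ → ℤ) :
    Matrix (Fin 3 × {S // S ∈ tailSet k b}) (Finset (Fin k)) K := fun p t =>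
  if p.1 = 0 then (if Good b t ∧ p.2.1 ⊆ t ∧ p.2.1.card ≤ (k - b) / 2 then (c p.2.1.card : K) else 0)
  else if p.1 = 1 then hd K p.2.1 t
  else (if p.2.1 = t then 1 else 0)

lemma mul_eq (b : ℕ) (c : ℕ → ℤ) (s t : Finset (Fin k)) :
    (UU K k b * VV K k b c) s t =
      (∑ S ∈ tailSet k b, (if Good b s ∧ S ⊆ s then (1 : K) else 0) *
        (if Good b t ∧ S ⊆ t ∧ S.card ≤ (k - b) / 2 then (c S.card : K) else 0)) +
      (∑ S ∈ tailSet k b, (if ¬ Good b s ∧ S = s then (1 : K) else 0) * hd K S t) +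
      (∑ S ∈ tailSet k b, (if Good b s ∧ ¬ Good b S then hd K s S else 0) *
        (if S = t then (1 : K) else 0)) := by
  rw [Matrix.mul_apply, Fintype.sum_prod_type, Fin.sum_univ_three]
  simp only [UU, VV, if_true, Fin.isValue, one_ne_zero, if_false,
    show (2 : Fin 3) ≠ 0 from by decide, show (2 : Fin 3) ≠ 1 from by decide]
  rw [Finset.sum_coe_sort (tailSet k b) (fun S => (if Good b s ∧ S ⊆ s then (1 : K) else 0) *
        (if Good b t ∧ S ⊆ t ∧ S.card ≤ (k - b) / 2 then (c S.card : K) else 0)),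
    Finset.sum_coe_sort (tailSet k b)
      (fun S => (if ¬ Good b s ∧ S = s then (1 : K) else 0) * hd K S t),
    Finset.sum_coe_sort (tailSet k b) (fun S => (if Good b s ∧ ¬ Good b S then hd K s S else 0) *
        (if S = t then (1 : K) else 0))]

lemma low_part {b : ℕ} (hb : b ≤ k) (c : ℕ → ℤ) (s t : Finset (Fin k)) (hs : Good b s)
    (ht : Good b t) :
    (∑ S ∈ tailSet k b, (if Good b s ∧ S ⊆ s then (1 : K) else 0) *
        (if Good b t ∧ S ⊆ t ∧ S.card ≤ (k - b) / 2 then (c S.card : K) else 0)) =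
      ((∑ i ∈ range ((k - b) / 2 + 1), c i * (((s ∩ t).card.choose i : ℕ) : ℤ) : ℤ) : K) := by
  have h1 : (∑ S ∈ tailSet k b, (if Good b s ∧ S ⊆ s then (1 : K) else 0) *
        (if Good b t ∧ S ⊆ t ∧ S.card ≤ (k - b) / 2 then (c S.card : K) else 0)) =
      ∑ S ∈ (s ∩ t).powerset, (if S.card ≤ (k - b) / 2 then (c S.card : K) else 0) := by
    symm
    have h2 : ∑ S ∈ (s ∩ t).powerset, (if S.card ≤ (k - b) / 2 then (c S.card : K) else 0) =
        ∑ S : Finset (Fin k), (if S ⊆ s ∩ t then
          (if S.card ≤ (k - b) / 2 then (c S.card : K) else 0) else 0) := by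
      have hf : (univ : Finset (Finset (Fin k))).filter (fun S => S ⊆ s ∩ t) = (s ∩ t).powerset := by
        ext S; simp only [Finset.mem_filter, Finset.mem_univ, true_and, Finset.mem_powerset]
      rw [← hf, Finset.sum_filter]
    rw [h2, ← Finset.sum_subset (Finset.subset_univ (tailSet k b))]
    · refine Finset.sum_congr rfl fun S _ => ?_
      by_cases a1 : S ⊆ s <;> by_cases a2 : S ⊆ t <;> by_cases a3 : S.card ≤ (k - b) / 2 <;>
        simp [a1, a2, a3, hs, ht, Finset.subset_inter_iff]
    · intro S _ hS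
      by_cases a1 : S ⊆ s ∩ t
      · rw [if_pos a1, if_neg]
        intro h; exact hS (small_mem hb h)
      · rw [if_neg a1]
  rw [h1, Finset.sum_powerset_apply_card (fun n => if n ≤ (k - b) / 2 then (c n : K) else 0)]
  push_cast
  have e1 : ∑ n ∈ range ((s ∩ t).card + 1), (s ∩ t).card.choose n •
      (if n ≤ (k - b) / 2 then (c n : K) else 0) =
      ∑ n ∈ range ((s ∩ t).card + 1 + ((k - b) / 2 + 1)), (s ∩ t).card.choose n •
      (if n ≤ (k - b) / 2 then (c n : K) else 0) := by
    apply Finset.sum_subset (Finset.range_subset_range.mpr (by omega))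
    intro n _ hn
    rw [Nat.choose_eq_zero_of_lt (by
      by_contra h; exact hn (Finset.mem_range.mpr (by omega))), zero_smul]
  have e2 : ∑ i ∈ range ((k - b) / 2 + 1), (c i : K) * ((s ∩ t).card.choose i : K) =
      ∑ n ∈ range ((s ∩ t).card + 1 + ((k - b) / 2 + 1)), (s ∩ t).card.choose n •
      (if n ≤ (k - b) / 2 then (c n : K) else 0) := by
    rw [← Finset.sum_subset (Finset.range_subset_range.mpr
      (by omega : (k - b) / 2 + 1 ≤ (s ∩ t).card + 1 + ((k - b) / 2 + 1)))]
    · refine Finset.sum_congr rfl fun i hi => ?_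
      have : i ≤ (k - b) / 2 := by have := Finset.mem_range.mp hi; omega
      rw [if_pos this, nsmul_eq_mul, mul_comm]
    · intro n _ hn
      have : ¬ n ≤ (k - b) / 2 := fun h => hn (Finset.mem_range.mpr (by omega))
      rw [if_neg this, smul_zero]
  rw [e1, e2]

/-- the sparse part -/
def SS (K : Type*) [Field K] (k b : ℕ) (c : ℕ → ℤ) : Matrix (Finset (Fin k)) (Finset (Fin k)) K :=
  fun s t => hd K s t - (UU K k b * VV K k b c) s t

lemma SS_support {b : ℕ} (hb : b ≤ k) (c : ℕ → ℤ)
    (hc : ∀ a, (k + b) / 2 - (k - b) / 2 ≤ a → a ≤ (k + b) / 2 - (k - b) / 2 + (k - b) / 2 →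
      ∑ i ∈ range ((k - b) / 2 + 1), c i * (a.choose i : ℤ) = (-1) ^ a)
    (s t : Finset (Fin k)) (h : SS K k b c s t ≠ 0) :
    Good b s ∧ Good b t ∧ (s ∩ t).card < (k + b) / 2 - (k - b) / 2 := by
  by_contra hcon
  apply h
  unfold SS
  rw [mul_eq]
  by_cases hs : Good b s
  · by_cases ht : Good b t
    · rw [low_part hb c s t hs ht]
      have z2 : (∑ S ∈ tailSet k b, (if ¬ Good b s ∧ S = s then (1 : K) else 0) * hd K S t) = 0 := by
        refine Finset.sum_eq_zero fun S _ => ?_
        rw [if_neg (fun h' => h'.1 hs), zero_mul]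
      have z3 : (∑ S ∈ tailSet k b, (if Good b s ∧ ¬ Good b S then hd K s S else 0) *
          (if S = t then (1 : K) else 0)) = 0 := by
        refine Finset.sum_eq_zero fun S _ => ?_
        by_cases h' : S = t
        · subst h'
          rw [if_neg (fun h'' => h''.2 ht), zero_mul]
        · rw [if_neg h', mul_zero]
      rw [z2, z3, hc]
      · unfold hd; push_cast; ring
      · by_contra h'
        exact hcon ⟨hs, ht, by omega⟩
      · have h1 : (s ∩ t).card ≤ s.card := Finset.card_le_card Finset.inter_subset_left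
        unfold Good at hs
        rw [abs_le] at hs
        omega
    · have z1 : (∑ S ∈ tailSet k b, (if Good b s ∧ S ⊆ s then (1 : K) else 0) *
          (if Good b t ∧ S ⊆ t ∧ S.card ≤ (k - b) / 2 then (c S.card : K) else 0)) = 0 := by
        refine Finset.sum_eq_zero fun S _ => ?_
        rw [if_neg (fun h' : Good b t ∧ _ => ht h'.1), mul_zero]
      have z2 : (∑ S ∈ tailSet k b, (if ¬ Good b s ∧ S = s then (1 : K) else 0) * hd K S t) = 0 := by
        refine Finset.sum_eq_zero fun S _ => ?_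
        rw [if_neg (fun h' => h'.1 hs), zero_mul]
      have z3 : (∑ S ∈ tailSet k b, (if Good b s ∧ ¬ Good b S then hd K s S else 0) *
          (if S = t then (1 : K) else 0)) = hd K s t := by
        rw [Finset.sum_eq_single t]
        · rw [if_pos ⟨hs, ht⟩, if_pos rfl, mul_one]
        · intro S _ hS; rw [if_neg hS, mul_zero]
        · intro h'; exact absurd (not_good_mem ht) h'
      rw [z1, z2, z3]; ring
  · have z1 : (∑ S ∈ tailSet k b, (if Good b s ∧ S ⊆ s then (1 : K) else 0) *
        (if Good b t ∧ S ⊆ t ∧ S.card ≤ (k - b) / 2 then (c S.card : K) else 0)) = 0 := by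
      refine Finset.sum_eq_zero fun S _ => ?_
      rw [if_neg (fun h' => hs h'.1), zero_mul]
    have z2 : (∑ S ∈ tailSet k b, (if ¬ Good b s ∧ S = s then (1 : K) else 0) * hd K S t) =
        hd K s t := by
      rw [Finset.sum_eq_single s]
      · rw [if_pos ⟨hs, rfl⟩, one_mul]
      · intro S _ hS; rw [if_neg (fun h' => hS h'.2), zero_mul]
      · intro h'; exact absurd (not_good_mem hs) h'
    have z3 : (∑ S ∈ tailSet k b, (if Good b s ∧ ¬ Good b S then hd K s S else 0) *
        (if S = t then (1 : K) else 0)) = 0 := by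
      refine Finset.sum_eq_zero fun S _ => ?_
      rw [if_neg (fun h' => hs h'.1), zero_mul]
    rw [z1, z2, z3]; ring

open Classical in
lemma SS_row {b : ℕ} (hb : b ≤ k) (c : ℕ → ℤ)
    (hc : ∀ a, (k + b) / 2 - (k - b) / 2 ≤ a → a ≤ (k + b) / 2 - (k - b) / 2 + (k - b) / 2 →
      ∑ i ∈ range ((k - b) / 2 + 1), c i * (a.choose i : ℤ) = (-1) ^ a)
    (s : Finset (Fin k)) :
    ((univ : Finset (Finset (Fin k))).filter fun t => SS K k b c s t ≠ 0).card ≤ ball k (3 * b) := by
  unfold ball
  apply Finset.card_le_card_of_injOn (fun t => t ∆ sᶜ)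
  · intro t ht
    have ht' := (Finset.mem_filter.mp (Finset.mem_coe.mp ht)).2
    obtain ⟨h1, h2, h3⟩ := SS_support hb c hc s t ht'
    simp only [Finset.coe_filter, Finset.mem_univ, true_and, Set.mem_ofPred_eq]
    have e1 : t ∆ sᶜ = (s ∩ t) ∪ (sᶜ \ t) := by
      ext x
      simp only [Finset.mem_symmDiff, Finset.mem_compl, Finset.mem_union, Finset.mem_inter,
        Finset.mem_sdiff]
      tauto
    have e2 : (t ∆ sᶜ).card ≤ (s ∩ t).card + (sᶜ \ t).card := by
      rw [e1]; exact Finset.card_union_le _ _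
    have e3 : (sᶜ \ t).card + (t \ s).card = sᶜ.card := by
      have : sᶜ \ t ∪ t \ s = sᶜ := by
        ext x
        simp only [Finset.mem_union, Finset.mem_sdiff, Finset.mem_compl]
        tauto
      have hdis : Disjoint (sᶜ \ t) (t \ s) := by
        rw [Finset.disjoint_left]
        intro x hx hx'
        exact (Finset.mem_sdiff.mp hx).2 (Finset.mem_sdiff.mp hx').1
      have hcu := Finset.card_union_of_disjoint hdis
      rw [this] at hcu
      exact hcu.symm
    have e4 : (t \ s).card + (s ∩ t).card = t.card := by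
      rw [Finset.inter_comm]; exact Finset.card_sdiff_add_card_inter t s
    have e5 : sᶜ.card + s.card = k := by
      have := Finset.card_compl_add_card s
      rwa [Fintype.card_fin] at this
    unfold Good at h1 h2
    rw [abs_le] at h1 h2
    omega
  · intro t _ t' _ h
    simpa using h

end Pool.Agent.H422R3.Rig
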