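import Pool.Agent.H422R3.Rig.Block

/-!
Asymptotic form.
-/

namespace Pool.Agent.H422R3.Rig

open Finset symmDiff

lemma asy (η ρ : ℝ) (hη : 0 < η) (hρ : 0 < ρ) : ∃ k₀ : ℕ, ∀ k ≥ k₀, ∃ b ≤ k,
    3 * (tail k b : ℝ) ≤ ρ * 2 ^ k ∧ (ball k (3 * b) : ℝ) ≤ (2 : ℝ) ^ (η * k) := by
  have h21 : (1 : ℝ) < (2 : ℝ) ^ (η / 2) := Real.one_lt_rpow (by norm_num) (by linarith)
  set l : ℝ := min (1 / 2) ((2 : ℝ) ^ (η / 2) - 1) with hl
  have hl0 : 0 < l := lt_min (by norm_num) (by linarith)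
  have hl2 : l ≤ 1 / 2 := min_le_left _ _
  have hl3 : 1 + l ≤ (2 : ℝ) ^ (η / 2) := by
    have := min_le_right (1 / 2 : ℝ) ((2 : ℝ) ^ (η / 2) - 1)
    linarith
  set τ : ℝ := -Real.logb 2 l with hτ
  have hlτ : l = (2 : ℝ) ^ (-τ) := by
    rw [hτ, neg_neg, Real.rpow_logb (by norm_num) (by norm_num) hl0]
  have hτ0 : 0 < τ := by
    rw [hτ, neg_pos]
    exact Real.logb_neg (by norm_num) hl0 (by linarith)
  set β : ℝ := min 1 (η / (6 * τ)) with hβ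
  have hβ0 : 0 < β := lt_min one_pos (by positivity)
  have hβ1 : β ≤ 1 := min_le_left _ _
  have hβ2 : 3 * τ * β ≤ η / 2 := by
    have h1 : β ≤ η / (6 * τ) := min_le_right _ _
    calc 3 * τ * β ≤ 3 * τ * (η / (6 * τ)) := by gcongr
      _ = η / 2 := by field_simp; ring
  refine ⟨⌈2 / β⌉₊ + ⌈12 / (ρ * β ^ 2)⌉₊ + 1, ?_⟩
  intro k hk
  have hk1 : 2 / β ≤ k := by
    have h1 := Nat.le_ceil (2 / β)
    have h2 : ((⌈2 / β⌉₊ : ℕ) : ℝ) ≤ k := by exact_mod_cast (by omega : ⌈2 / β⌉₊ ≤ k)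
    linarith
  have hk2 : 12 / (ρ * β ^ 2) ≤ k := by
    have h1 := Nat.le_ceil (12 / (ρ * β ^ 2))
    have h2 : ((⌈12 / (ρ * β ^ 2)⌉₊ : ℕ) : ℝ) ≤ k := by
      exact_mod_cast (by omega : ⌈12 / (ρ * β ^ 2)⌉₊ ≤ k)
    linarith
  have hk0 : (0 : ℝ) < k := by
    have : 0 < k := by omega
    exact_mod_cast this
  have hβk : 2 ≤ β * k := by
    rw [div_le_iff₀ hβ0] at hk1; linarith
  have hb1 : ((⌊β * k⌋₊ : ℕ) : ℝ) ≤ β * k := Nat.floor_le (by positivity)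
  have hb2 : β * k / 2 ≤ ((⌊β * k⌋₊ : ℕ) : ℝ) := by
    have := Nat.lt_floor_add_one (β * (k : ℝ))
    linarith
  refine ⟨⌊β * k⌋₊, ?_, ?_, ?_⟩
  · have : ((⌊β * k⌋₊ : ℕ) : ℝ) ≤ k := hb1.trans (by nlinarith)
    exact_mod_cast this
  · set b := ⌊β * (k : ℝ)⌋₊ with hb
    have h1 : (tail k b : ℝ) * (b : ℝ) ^ 2 ≤ k * 2 ^ k := by exact_mod_cast tail_le k b
    have h2 : (β * k / 2) ^ 2 ≤ (b : ℝ) ^ 2 := pow_le_pow_left₀ (by positivity) hb2 2
    have h3 : (tail k b : ℝ) * (β * k / 2) ^ 2 ≤ k * 2 ^ k :=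
      (mul_le_mul_of_nonneg_left h2 (Nat.cast_nonneg _)).trans h1
    have h4 : 12 ≤ k * (ρ * β ^ 2) := by rwa [div_le_iff₀ (by positivity)] at hk2
    have h5 : (tail k b : ℝ) * (β ^ 2 * k) ≤ 4 * 2 ^ k := by
      have : (tail k b : ℝ) * (β ^ 2 * k) * k ≤ 4 * 2 ^ k * k := by nlinarith
      exact le_of_mul_le_mul_right this hk0
    have h6 : 3 * (tail k b : ℝ) * (β ^ 2 * k) ≤ ρ * 2 ^ k * (β ^ 2 * k) := by
      have h7 : (12 : ℝ) * 2 ^ k ≤ k * (ρ * β ^ 2) * 2 ^ k :=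
        mul_le_mul_of_nonneg_right h4 (by positivity)
      nlinarith
    exact le_of_mul_le_mul_right h6 (by positivity)
  · set b := ⌊β * (k : ℝ)⌋₊ with hb
    have h1 := ball_le k (3 * b) l hl0 (by linarith)
    have h2 : (1 + l) ^ k ≤ (2 : ℝ) ^ (η / 2 * k) := by
      rw [Real.rpow_mul (by norm_num), Real.rpow_natCast]
      exact pow_le_pow_left₀ (by linarith) hl3 k
    have h3 : (2 : ℝ) ^ (-(η / 2 * k)) ≤ l ^ (3 * b) := by
      rw [hlτ, ← Real.rpow_natCast, ← Real.rpow_mul (by norm_num)]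
      apply Real.rpow_le_rpow_of_exponent_le (by norm_num)
      push_cast
      have : τ * (3 * (b : ℝ)) ≤ τ * (3 * (β * k)) := by gcongr
      nlinarith
    have h4 : (ball k (3 * b) : ℝ) * (2 : ℝ) ^ (-(η / 2 * k)) ≤ (2 : ℝ) ^ (η / 2 * k) :=
      (mul_le_mul_of_nonneg_left h3 (Nat.cast_nonneg _)).trans (h1.trans h2)
    rw [Real.rpow_neg (by norm_num), ← div_eq_mul_inv, div_le_iff₀ (by positivity),
      ← Real.rpow_add (by norm_num)] at h4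
    calc _ ≤ (2 : ℝ) ^ (η / 2 * k + η / 2 * k) := h4
      _ = _ := by congr 1; ring

/-- subsets and vectors -/
def vec (k : ℕ) : (Fin k → ZMod 2) ≃ Finset (Fin k) where
  toFun x := univ.filter fun i => x i = 1
  invFun s := fun i => if i ∈ s then 1 else 0
  left_inv x := by
    funext i
    have : ∀ a : ZMod 2, (if a = 1 then (1 : ZMod 2) else 0) = a := by decide
    simp only [Finset.mem_filter, Finset.mem_univ, true_and]
    exact this (x i)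
  right_inv s := by
    ext i; simp

lemma vec_add (k : ℕ) (x y : Fin k → ZMod 2) : vec k (x + y) = vec k x ∆ vec k y := by
  ext i
  have : ∀ a b : ZMod 2, a + b = 1 ↔ (a = 1 ∧ ¬ b = 1) ∨ (b = 1 ∧ ¬ a = 1) := by decide
  simp only [vec, Equiv.coe_fn_mk, Finset.mem_filter, Finset.mem_univ, true_and, Pi.add_apply,
    Finset.mem_symmDiff]
  exact this (x i) (y i)

variable {K : Type*} [Field K]

lemma nnz_submatrix {I J : Type*} [Fintype I] [Fintype J] (A : Matrix I I K) (e : J ≃ I) :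
    nnz (A.submatrix e e) = nnz A := by
  classical
  unfold nnz
  apply Finset.card_bij (fun p _ => (e p.1, e p.2))
  · intro p hp
    have := (Finset.mem_filter.mp hp).2
    exact Finset.mem_filter.mpr ⟨Finset.mem_univ _, this⟩
  · intro p _ q _ h
    have h1 := e.injective (congrArg Prod.fst h)
    have h2 := e.injective (congrArg Prod.snd h)
    exact Prod.ext h1 h2
  · intro q hq
    refine ⟨(e.symm q.1, e.symm q.2), ?_, by simp⟩
    refine Finset.mem_filter.mpr ⟨Finset.mem_univ _, ?_⟩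
    have := (Finset.mem_filter.mp hq).2
    simpa using this

theorem final (h2 : (2 : K) ≠ 0) (ε δ c : ℝ) (hε : 0 < ε) (hc : 0 ≤ c) (hcδ : c < δ) (hc1 : c < 1) :
    ∃ n₀ : ℕ, ∀ m k : ℕ, n₀ ≤ m * 2 ^ k → (m : ℝ) ≤ ((m * 2 ^ k : ℕ) : ℝ) ^ c →
      ∀ A : Matrix (Fin m × (Fin k → ZMod 2)) (Fin m × (Fin k → ZMod 2)) K,
      (∀ i j x y z, A (i, x + z) (j, y + z) = A (i, x) (j, y)) →
      ∃ R S : Matrix (Fin m × (Fin k → ZMod 2)) (Fin m × (Fin k → ZMod 2)) K, A = R + S ∧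
        (R.rank : ℝ) ≤ ε * ((m * 2 ^ k : ℕ) : ℝ) ∧
        (nnz S : ℝ) ≤ ((m * 2 ^ k : ℕ) : ℝ) ^ (1 + δ) := by
  set η : ℝ := (δ - c) / 2 with hη
  have hη0 : 0 < η := by rw [hη]; linarith
  obtain ⟨k₀, hk₀⟩ := asy η (ε / 2) hη0 (by linarith)
  refine ⟨⌈(2 : ℝ) ^ ((k₀ : ℝ) / (1 - c))⌉₊ + 1, ?_⟩
  intro m k hn hm A hA
  set n : ℕ := m * 2 ^ k with hndef
  have hn1 : 1 ≤ n := by omega
  have hn1' : (1 : ℝ) ≤ n := by exact_mod_cast hn1
  have hn0' : (0 : ℝ) < n := by linarith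
  have hm1 : 1 ≤ m := by
    rcases Nat.eq_zero_or_pos m with h | h
    · rw [hndef, h, Nat.zero_mul] at hn1; omega
    · exact h
  have hm0' : (0 : ℝ) < m := by exact_mod_cast hm1
  have hnR : (n : ℝ) = m * 2 ^ k := by rw [hndef]; push_cast; ring
  have h2k : (2 : ℝ) ^ k ≤ n := by
    rw [hnR]
    have : (1 : ℝ) ≤ m := by exact_mod_cast hm1
    nlinarith [pow_pos (show (0 : ℝ) < 2 by norm_num) k]
  -- `k` is large
  have hk : k₀ ≤ k := by
    by_contra hlt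
    push Not at hlt
    have h3 : (n : ℝ) ^ (1 - c) ≤ (2 : ℝ) ^ k := by
      rw [Real.rpow_sub hn0', Real.rpow_one, div_le_iff₀ (Real.rpow_pos_of_pos hn0' c)]
      calc (n : ℝ) = 2 ^ k * m := by rw [hnR]; ring
        _ ≤ 2 ^ k * (n : ℝ) ^ c := by gcongr
    have h4 : (2 : ℝ) ^ k ≤ (2 : ℝ) ^ k₀ := pow_le_pow_right₀ (by norm_num) hlt.le
    have h5 : (n : ℝ) ≤ (2 : ℝ) ^ ((k₀ : ℝ) / (1 - c)) := by
      have h6 : ((n : ℝ) ^ (1 - c)) ^ ((1 - c)⁻¹) ≤ ((2 : ℝ) ^ k₀) ^ ((1 - c)⁻¹) :=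
        Real.rpow_le_rpow (by positivity) (h3.trans h4) (by
          have : 0 < 1 - c := by linarith
          positivity)
      rw [← Real.rpow_mul hn0'.le, mul_inv_cancel₀ (by linarith), Real.rpow_one,
        ← Real.rpow_natCast, ← Real.rpow_mul (by norm_num)] at h6
      rwa [div_eq_mul_inv]
    have h7 := Nat.le_ceil ((2 : ℝ) ^ ((k₀ : ℝ) / (1 - c)))
    have h8 : (n : ℝ) ≤ ((⌈(2 : ℝ) ^ ((k₀ : ℝ) / (1 - c))⌉₊ : ℕ) : ℝ) := h5.trans h7
    have h9 : n ≤ ⌈(2 : ℝ) ^ ((k₀ : ℝ) / (1 - c))⌉₊ := by exact_mod_cast h8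
    omega
  obtain ⟨b, hb, hb1, hb2⟩ := hk₀ k hk
  let E : (Fin m × (Fin k → ZMod 2)) ≃ (Fin m × Finset (Fin k)) :=
    Equiv.prodCongr (Equiv.refl _) (vec k)
  obtain ⟨R, T, hRT, hR, hT⟩ := block (M := Fin m) h2 (A.submatrix E.symm E.symm) (by
    intro i j s t z
    simp only [Matrix.submatrix_apply]
    have e1 : ∀ (i : Fin m) (s : Finset (Fin k)), E.symm (i, s) = (i, (vec k).symm s) :=
      fun _ _ => rfl
    rw [e1, e1, e1, e1]
    have e2 : ∀ s z : Finset (Fin k), (vec k).symm (s ∆ z) = (vec k).symm s + (vec k).symm z := by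
      intro s z
      rw [Equiv.symm_apply_eq, vec_add, Equiv.apply_symm_apply, Equiv.apply_symm_apply]
    rw [e2, e2]
    exact hA _ _ _ _ _) b hb
  refine ⟨R.submatrix E E, T.submatrix E E, ?_, ?_, ?_⟩
  · ext p q
    have := congrFun (congrFun hRT (E p)) (E q)
    simpa using this
  · rw [Matrix.rank_submatrix, hnR]
    have h3 : (R.rank : ℝ) ≤ 2 * (m * (3 * tail k b)) := by
      have : (R.rank : ℝ) ≤ ((2 * (Fintype.card (Fin m) * (3 * tail k b)) : ℕ) : ℝ) := by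
        exact_mod_cast hR
      rw [Fintype.card_fin] at this
      push_cast at this
      exact this
    calc (R.rank : ℝ) ≤ 2 * (m * (3 * tail k b)) := h3
      _ ≤ 2 * (m * (ε / 2 * 2 ^ k)) := by gcongr
      _ = ε * (m * 2 ^ k) := by ring
  · rw [nnz_submatrix]
    have h3 : (nnz T : ℝ) ≤ (m : ℝ) ^ 2 * (2 ^ k * (ball k (3 * b) : ℝ) ^ 2) := by
      have : (nnz T : ℝ) ≤ ((Fintype.card (Fin m) ^ 2 * (2 ^ k * (ball k (3 * b)) ^ 2) : ℕ) : ℝ) := by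
        exact_mod_cast hT
      rw [Fintype.card_fin] at this
      push_cast at this
      exact this
    have h4 : (ball k (3 * b) : ℝ) ^ 2 ≤ (n : ℝ) ^ (2 * η) := by
      calc (ball k (3 * b) : ℝ) ^ 2 ≤ ((2 : ℝ) ^ (η * k)) ^ 2 :=
            pow_le_pow_left₀ (Nat.cast_nonneg _) hb2 2
        _ = ((2 : ℝ) ^ k) ^ (2 * η) := by
          rw [← Real.rpow_natCast, ← Real.rpow_mul (by norm_num), ← Real.rpow_natCast 2 k,
            ← Real.rpow_mul (by norm_num)]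
          congr 1
          push_cast; ring
        _ ≤ (n : ℝ) ^ (2 * η) := Real.rpow_le_rpow (by positivity) h2k (by linarith)
    calc (nnz T : ℝ) ≤ (m : ℝ) ^ 2 * (2 ^ k * (ball k (3 * b) : ℝ) ^ 2) := h3
      _ ≤ (m : ℝ) ^ 2 * (2 ^ k * (n : ℝ) ^ (2 * η)) := by gcongr
      _ = (n : ℝ) * m * (n : ℝ) ^ (2 * η) := by rw [hnR]; ring
      _ ≤ (n : ℝ) * (n : ℝ) ^ c * (n : ℝ) ^ (2 * η) := by gcongr
      _ = (n : ℝ) ^ (1 + δ) := by
        rw [show (1 + δ : ℝ) = 1 + c + 2 * η by rw [hη]; ring, Real.rpow_add hn0',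
          Real.rpow_add hn0', Real.rpow_one]

end Pool.Agent.H422R3.Rig
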