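import Pool.Agent.H422R3.Rig.Final

/-!
Free actions of elementary abelian 2-groups.
-/

namespace Pool.Agent.H422R3.Rig

open Finset

lemma orbits {G X : Type*} [Group G] [MulAction G X] [Finite X]
    (hfree : ∀ (g : G) (x : X), g • x = x → g = 1) :
    ∃ (m : ℕ) (F : Fin m × G ≃ X), ∀ q g h, F (q, h * g) = h • F (q, g) := by
  classical
  let Q := MulAction.orbitRel.Quotient G X
  have : Finite Q := Quotient.finite _
  obtain ⟨m, ⟨e⟩⟩ := Finite.exists_equiv_fin Q
  let r : Q → X := fun q => Quotient.out q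
  have hr : ∀ q : Q, (Quotient.mk (MulAction.orbitRel G X) (r q) : Q) = q :=
    fun q => Quotient.out_eq q
  let f : Fin m × G → X := fun p => p.2 • r (e.symm p.1)
  have hf : Function.Bijective f := by
    constructor
    · rintro ⟨q, g⟩ ⟨q', g'⟩ h
      have h' : g • r (e.symm q) = g' • r (e.symm q') := h
      have h1 : e.symm q = e.symm q' := by
        rw [← hr (e.symm q), ← hr (e.symm q')]
        apply Quotient.sound
        show (MulAction.orbitRel G X).r _ _
        refine ⟨g⁻¹ * g', ?_⟩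
        show (g⁻¹ * g') • r (e.symm q') = r (e.symm q)
        rw [mul_smul, ← h', ← mul_smul, inv_mul_cancel, one_smul]
      have h2 : q = q' := e.symm.injective h1
      subst h2
      have h3 : g'⁻¹ * g = 1 := by
        apply hfree _ (r (e.symm q))
        rw [mul_smul, h', ← mul_smul, inv_mul_cancel, one_smul]
      have h4 : g = g' := by
        have := congrArg (g' * ·) h3
        simpa using this
      rw [h4]
    · intro x
      have h1 : (MulAction.orbitRel G X).r x (r (Quotient.mk (MulAction.orbitRel G X) x : Q)) := by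
        apply Quotient.exact
        exact (hr (Quotient.mk (MulAction.orbitRel G X) x : Q)).symm
      obtain ⟨g, hg⟩ := h1
      refine ⟨(e (Quotient.mk (MulAction.orbitRel G X) x : Q), g), ?_⟩
      show g • r (e.symm (e _)) = x
      rw [Equiv.symm_apply_apply]
      exact hg
  refine ⟨m, Equiv.ofBijective f hf, ?_⟩
  intro q g h
  show (h * g) • r (e.symm q) = h • (g • r (e.symm q))
  rw [mul_smul]

lemma elementary {G : Type*} [Group G] [Finite G] (hG : ∀ g : G, g * g = 1) :
    ∃ (k : ℕ) (e : (Fin k → ZMod 2) ≃ G), ∀ x y, e (x + y) = e x * e y := by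
  have hcomm : ∀ a b : G, a * b = b * a := by
    intro a b
    have hi : ∀ g : G, g⁻¹ = g := fun g => inv_eq_of_mul_eq_one_left (hG g)
    have := hi (a * b)
    rw [mul_inv_rev, hi, hi] at this
    exact this.symm
  letI : CommGroup G := { (inferInstance : Group G) with mul_comm := hcomm }
  letI : Module (ZMod 2) (Additive G) := AddCommGroup.zmodModule (n := 2) (by
    intro x
    rw [two_nsmul]
    exact hG x.toMul)
  have : Finite (Additive G) := inferInstanceAs (Finite G)
  have : Module.Finite (ZMod 2) (Additive G) := Module.Finite.of_finite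
  let b := Module.finBasis (ZMod 2) (Additive G)
  refine ⟨_, b.equivFun.symm.toEquiv.trans Additive.toMul, ?_⟩
  intro x y
  show Additive.toMul (b.equivFun.symm (x + y)) = _
  rw [map_add]
  rfl

variable {K : Type*} [Field K]

lemma nnz_submatrix' {I J I' J' : Type*} [Fintype I] [Fintype J] [Fintype I'] [Fintype J']
    (A : Matrix I J K) (e : I' ≃ I) (f : J' ≃ J) :
    nnz (A.submatrix e f) = nnz A := by
  classical
  unfold nnz
  apply Finset.card_bij (fun p _ => (e p.1, f p.2))
  · intro p hp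
    have := (Finset.mem_filter.mp hp).2
    exact Finset.mem_filter.mpr ⟨Finset.mem_univ _, this⟩
  · intro p _ q _ h
    have h1 := e.injective (congrArg Prod.fst h)
    have h2 := f.injective (congrArg Prod.snd h)
    exact Prod.ext h1 h2
  · intro q hq
    refine ⟨(e.symm q.1, f.symm q.2), ?_, by simp⟩
    refine Finset.mem_filter.mpr ⟨Finset.mem_univ _, ?_⟩
    have := (Finset.mem_filter.mp hq).2
    simpa using this

theorem free (h2 : (2 : K) ≠ 0) (ε δ c : ℝ) (hε : 0 < ε) (hcδ : c < δ) (hc1 : c < 1) :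
    ∃ n₀ : ℕ, ∀ n ≥ n₀, ∀ A : Matrix (Fin n) (Fin n) K,
      ∀ G : Subgroup (Equiv.Perm (Fin n) × Equiv.Perm (Fin n)),
      (∀ g ∈ G, g * g = 1) →
      (∀ g ∈ G, g ≠ 1 → (∀ i, g.1 i ≠ i) ∧ (∀ j, g.2 j ≠ j)) →
      (∀ g ∈ G, ∀ i j, A (g.1 i) (g.2 j) = A i j) →
      (n : ℝ) ^ (1 - c) ≤ Nat.card G →
      ∃ R S : Matrix (Fin n) (Fin n) K, A = R + S ∧
        (R.rank : ℝ) ≤ ε * n ∧ (nnz S : ℝ) ≤ (n : ℝ) ^ (1 + δ) := by
  classical
  by_cases hc0 : 0 ≤ c
  swap
  · -- impossible for `n ≥ 2`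
    refine ⟨2, ?_⟩
    intro n hn A G _ hfree _ hcard
    exfalso
    have hn' : (1 : ℝ) < n := by exact_mod_cast (by omega : 1 < n)
    have h1 : Nat.card G ≤ n := by
      have hinj : Function.Injective (fun g : G => (g : Equiv.Perm (Fin n) × Equiv.Perm (Fin n)).1 ⟨0, by omega⟩) := by
        intro g g' h
        have h' : (g : Equiv.Perm (Fin n) × Equiv.Perm (Fin n)).1 ⟨0, by omega⟩ =
          (g' : Equiv.Perm (Fin n) × Equiv.Perm (Fin n)).1 ⟨0, by omega⟩ := h
        by_contra hne
        have h3 : ((g'⁻¹ * g : G) : Equiv.Perm (Fin n) × Equiv.Perm (Fin n)) ≠ 1 := by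
          intro h4
          apply hne
          have h5 : g'⁻¹ * g = 1 := Subtype.ext h4
          have := congrArg (g' * ·) h5
          simpa using this
        have := (hfree _ (g'⁻¹ * g : G).2 h3).1 ⟨0, by omega⟩
        apply this
        simp only [Subgroup.coe_mul, Subgroup.coe_inv, Prod.fst_mul, Prod.fst_inv,
          Equiv.Perm.coe_mul, Function.comp_apply]
        rw [h']
        exact Equiv.symm_apply_apply _ _
      have := Nat.card_le_card_of_injective _ hinj
      simpa using this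
    have h2 : (n : ℝ) < (n : ℝ) ^ (1 - c) := by
      conv_lhs => rw [← Real.rpow_one (n : ℝ)]
      exact Real.rpow_lt_rpow_of_exponent_lt hn' (by linarith)
    have h3 : (Nat.card G : ℝ) ≤ n := by exact_mod_cast h1
    linarith
  obtain ⟨n₀, hn₀⟩ := final (K := K) h2 ε δ c hε hc0 hcδ hc1
  refine ⟨n₀ + 1, ?_⟩
  intro n hn A G hG hfree hinv hcard
  have hn0 : (0 : ℝ) < n := by exact_mod_cast (by omega : 0 < n)
  obtain ⟨k, e, he⟩ := elementary (G := G) (fun g => Subtype.ext (hG g g.2))
  -- the two actions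
  letI a1 : MulAction G (Fin n) :=
    { smul := fun g i => (g : Equiv.Perm (Fin n) × Equiv.Perm (Fin n)).1 i
      one_smul := fun _ => rfl
      mul_smul := fun _ _ _ => rfl }
  obtain ⟨m, F, hF⟩ := @orbits G (Fin n) _ a1 _ (by
    intro g x hx
    by_contra hne
    exact (hfree g g.2 (fun h => hne (Subtype.ext h))).1 x hx)
  have hF' : ∀ q g h, F (q, h * g) = (h : Equiv.Perm (Fin n) × Equiv.Perm (Fin n)).1 (F (q, g)) := hF
  clear hF
  letI a2 : MulAction G (Fin n) :=
    { smul := fun g i => (g : Equiv.Perm (Fin n) × Equiv.Perm (Fin n)).2 i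
      one_smul := fun _ => rfl
      mul_smul := fun _ _ _ => rfl }
  obtain ⟨m', F₂, hF₂⟩ := @orbits G (Fin n) _ a2 _ (by
    intro g x hx
    by_contra hne
    exact (hfree g g.2 (fun h => hne (Subtype.ext h))).2 x hx)
  have hF₂' : ∀ q g h, F₂ (q, h * g) = (h : Equiv.Perm (Fin n) × Equiv.Perm (Fin n)).2 (F₂ (q, g)) :=
    hF₂
  clear hF₂
  have hGk : Nat.card G = 2 ^ k := by
    rw [← Nat.card_congr e]
    simp
  have hnm : n = m * 2 ^ k := by
    have := Nat.card_congr F
    rw [Nat.card_prod, hGk] at this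
    simpa using this.symm
  have hnm' : n = m' * 2 ^ k := by
    have := Nat.card_congr F₂
    rw [Nat.card_prod, hGk] at this
    simpa using this.symm
  have hmm : m' = m := by
    have h : m' * 2 ^ k = m * 2 ^ k := by rw [← hnm', ← hnm]
    exact Nat.eq_of_mul_eq_mul_right (by positivity) h
  subst hmm
  let E₁ : Fin m' × (Fin k → ZMod 2) ≃ Fin n := (Equiv.prodCongr (Equiv.refl _) e).trans F
  let E₂ : Fin m' × (Fin k → ZMod 2) ≃ Fin n := (Equiv.prodCongr (Equiv.refl _) e).trans F₂
  have hm : (m' : ℝ) ≤ ((m' * 2 ^ k : ℕ) : ℝ) ^ c := by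
    rw [← hnm]
    have h1 : (n : ℝ) = m' * (Nat.card G : ℝ) := by
      rw [hGk]; exact_mod_cast hnm
    have h3 : (m' : ℝ) * (n : ℝ) ^ (1 - c) ≤ n := by
      calc (m' : ℝ) * (n : ℝ) ^ (1 - c) ≤ m' * (Nat.card G : ℝ) := by gcongr
        _ = n := h1.symm
    have h4 : (n : ℝ) = (n : ℝ) ^ c * (n : ℝ) ^ (1 - c) := by
      rw [← Real.rpow_add hn0]
      rw [show c + (1 - c) = (1 : ℝ) by ring, Real.rpow_one]
    have h5 : (0 : ℝ) < (n : ℝ) ^ (1 - c) := Real.rpow_pos_of_pos hn0 _
    have h6 : (m' : ℝ) * (n : ℝ) ^ (1 - c) ≤ (n : ℝ) ^ c * (n : ℝ) ^ (1 - c) := by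
      rw [← h4]; exact h3
    exact le_of_mul_le_mul_right h6 h5
  obtain ⟨R, S, hRS, hR, hS⟩ := hn₀ m' k (by omega) hm (A.submatrix E₁ E₂) (by
    intro i j x y z
    simp only [Matrix.submatrix_apply]
    have e1 : E₁ (i, x + z) = ((e z : G) : Equiv.Perm (Fin n) × Equiv.Perm (Fin n)).1 (E₁ (i, x)) := by
      show F (i, e (x + z)) = _
      rw [add_comm, he, hF']
      rfl
    have e2 : E₂ (j, y + z) = ((e z : G) : Equiv.Perm (Fin n) × Equiv.Perm (Fin n)).2 (E₂ (j, y)) := by
      show F₂ (j, e (y + z)) = _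
      rw [add_comm, he, hF₂']
      rfl
    rw [e1, e2]
    exact hinv _ (e z).2 _ _)
  refine ⟨R.submatrix E₁.symm E₂.symm, S.submatrix E₁.symm E₂.symm, ?_, ?_, ?_⟩
  · ext p q
    have := congrFun (congrFun hRS (E₁.symm p)) (E₂.symm q)
    simpa using this
  · rw [Matrix.rank_submatrix]
    rw [← hnm] at hR
    exact hR
  · rw [nnz_submatrix']
    rw [← hnm] at hS
    exact hS

end Pool.Agent.H422R3.Rig
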