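import Mathlib

/-!
Walsh-Hadamard matrices: orthogonality, tail counts, low rank approximations.
-/

namespace Pool.Agent.H422R3.Rig

open Finset symmDiff

variable {k : ℕ}

/-- Walsh-Hadamard matrix -/
def hd (R : Type*) [CommRing R] (s t : Finset (Fin k)) : R := (-1) ^ (s ∩ t).card

lemma hd_comm (R : Type*) [CommRing R] (s t : Finset (Fin k)) : hd R s t = hd R t s := by
  unfold hd; rw [Finset.inter_comm]

lemma hd_prod (R : Type*) [CommRing R] (s t : Finset (Fin k)) :
    hd R s t = ∏ i ∈ s, (if i ∈ t then -1 else 1) := by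
  unfold hd
  rw [Finset.prod_ite, Finset.prod_const_one, mul_one, Finset.prod_const]
  congr 2

lemma hd_symm (R : Type*) [CommRing R] (z s t : Finset (Fin k)) :
    hd R z (s ∆ t) = hd R z s * hd R z t := by
  rw [hd_prod, hd_prod, hd_prod, ← Finset.prod_mul_distrib]
  refine Finset.prod_congr rfl fun i _ => ?_
  simp only [Finset.mem_symmDiff]
  by_cases h1 : i ∈ s <;> by_cases h2 : i ∈ t <;> simp [h1, h2]

lemma hd_sum (R : Type*) [CommRing R] (u : Finset (Fin k)) :
    ∑ z : Finset (Fin k), hd R z u = if u = ∅ then 2 ^ k else 0 := by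
  have h1 : ∑ z : Finset (Fin k), hd R z u = ∏ i : Fin k, (1 + (if i ∈ u then (-1 : R) else 1)) := by
    rw [Finset.prod_one_add, Finset.powerset_univ]
    exact Finset.sum_congr rfl fun z _ => hd_prod R z u
  rw [h1]
  split_ifs with h
  · subst h
    simp only [Finset.notMem_empty, if_false]
    rw [Finset.prod_const, Finset.card_univ, Fintype.card_fin]
    norm_num
  · obtain ⟨a, ha⟩ := Finset.nonempty_iff_ne_empty.mpr h
    exact Finset.prod_eq_zero (Finset.mem_univ a) (by simp [ha])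

/-- variance of the binomial distribution -/
lemma variance (k : ℕ) :
    ∑ s : Finset (Fin k), ((k : ℤ) - 2 * (s.card : ℤ)) ^ 2 = (k : ℤ) * (2 : ℤ) ^ k := by
  have h1 : ∀ s : Finset (Fin k), ((k : ℤ) - 2 * (s.card : ℤ)) = ∑ i : Fin k, hd ℤ s {i} := by
    intro s
    have : ∀ i : Fin k, hd ℤ s {i} = 1 - 2 * (if i ∈ s then 1 else 0) := by
      intro i
      unfold hd
      by_cases hi : i ∈ s
      · rw [Finset.inter_singleton_of_mem hi]; simp [hi]
      · rw [Finset.inter_singleton_of_notMem hi]; simp [hi]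
    rw [Finset.sum_congr rfl fun i _ => this i, Finset.sum_sub_distrib, ← Finset.mul_sum]
    simp
  have h2 : ∀ s : Finset (Fin k), ((k : ℤ) - 2 * (s.card : ℤ)) ^ 2 =
      ∑ i : Fin k, ∑ j : Fin k, hd ℤ s ({i} ∆ {j}) := by
    intro s
    rw [h1 s, sq, Finset.sum_mul_sum]
    refine Finset.sum_congr rfl fun i _ => Finset.sum_congr rfl fun j _ => ?_
    rw [hd_symm]
  rw [Finset.sum_congr rfl fun s _ => h2 s, Finset.sum_comm]
  have h3 : ∀ i : Fin k, ∑ s : Finset (Fin k), ∑ j : Fin k, hd ℤ s ({i} ∆ {j}) = 2 ^ k := by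
    intro i
    rw [Finset.sum_comm]
    rw [Finset.sum_eq_single i]
    · rw [symmDiff_self, hd_sum, if_pos (Finset.bot_eq_empty)]
    · intro j _ hj
      rw [hd_sum, if_neg]
      intro h
      rw [← Finset.bot_eq_empty, symmDiff_eq_bot, Finset.singleton_inj] at h
      exact hj h.symm
    · intro h; exact absurd (Finset.mem_univ i) h
  rw [Finset.sum_congr rfl fun i _ => h3 i]
  simp

/-- the number of sets far from the middle -/
def tail (k b : ℕ) : ℕ :=
  ((univ : Finset (Finset (Fin k))).filter fun s => (b : ℤ) ≤ |(k : ℤ) - 2 * (s.card : ℤ)|).card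

lemma tail_le (k b : ℕ) : tail k b * b ^ 2 ≤ k * 2 ^ k := by
  have h1 : (tail k b : ℤ) * (b : ℤ) ^ 2 ≤ (k : ℤ) * (2 : ℤ) ^ k := by
    rw [← variance k]
    calc (tail k b : ℤ) * (b : ℤ) ^ 2 = ∑ s ∈ (univ : Finset (Finset (Fin k))).filter
          (fun s => (b : ℤ) ≤ |(k : ℤ) - 2 * (s.card : ℤ)|), (b : ℤ) ^ 2 := by
          rw [Finset.sum_const, nsmul_eq_mul]; rfl
      _ ≤ ∑ s ∈ (univ : Finset (Finset (Fin k))).filter
          (fun s => (b : ℤ) ≤ |(k : ℤ) - 2 * (s.card : ℤ)|), ((k : ℤ) - 2 * (s.card : ℤ)) ^ 2 := by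
          refine Finset.sum_le_sum fun s hs => ?_
          have := (Finset.mem_filter.mp hs).2
          rw [← sq_abs ((k : ℤ) - 2 * (s.card : ℤ))]
          exact pow_le_pow_left₀ (by positivity) this 2
      _ ≤ _ := Finset.sum_le_sum_of_subset_of_nonneg (Finset.subset_univ _)
          (fun s _ _ => sq_nonneg _)
  exact_mod_cast h1

/-- size of a Hamming ball -/
def ball (k w : ℕ) : ℕ := ((univ : Finset (Finset (Fin k))).filter fun s => s.card ≤ w).card

lemma ball_le (k w : ℕ) (l : ℝ) (h0 : 0 < l) (h1 : l ≤ 1) :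
    (ball k w : ℝ) * l ^ w ≤ (1 + l) ^ k := by
  have h2 : (1 + l) ^ k = ∑ s : Finset (Fin k), l ^ s.card := by
    have := Finset.prod_one_add (f := fun _ : Fin k => l) (univ : Finset (Fin k))
    rw [Finset.prod_const, Finset.card_univ, Fintype.card_fin, Finset.powerset_univ] at this
    rw [this]
    exact Finset.sum_congr rfl fun s _ => Finset.prod_const _
  rw [h2]
  calc (ball k w : ℝ) * l ^ w = ∑ s ∈ (univ : Finset (Finset (Fin k))).filter
        (fun s => s.card ≤ w), l ^ w := by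
        rw [Finset.sum_const, nsmul_eq_mul]; rfl
    _ ≤ ∑ s ∈ (univ : Finset (Finset (Fin k))).filter (fun s => s.card ≤ w), l ^ s.card := by
        refine Finset.sum_le_sum fun s hs => ?_
        exact pow_le_pow_of_le_one h0.le h1 (Finset.mem_filter.mp hs).2
    _ ≤ _ := Finset.sum_le_sum_of_subset_of_nonneg (Finset.subset_univ _)
        (fun s _ _ => by positivity)

/-- interpolation of `(-1)^a` on an interval in the binomial basis -/
lemma coeff (lo D : ℕ) : ∃ c : ℕ → ℤ, ∀ a, lo ≤ a → a ≤ lo + D →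
    ∑ i ∈ range (D + 1), c i * (a.choose i : ℤ) = (-1) ^ a := by
  refine ⟨fun i => (-1) ^ lo * ∑ j ∈ range (D + 1),
    if i ≤ j then (-2) ^ j * Ring.choose (-(lo : ℤ)) (j - i) else 0, ?_⟩
  intro a ha1 ha2
  obtain ⟨b, rfl⟩ : ∃ b, a = lo + b := ⟨a - lo, by omega⟩
  have hb : b ≤ D := by omega
  have h1 : ∀ j, ∑ i ∈ range (j + 1), ((lo + b).choose i : ℤ) * Ring.choose (-(lo : ℤ)) (j - i) =
      (b.choose j : ℤ) := by
    intro j
    have h2 := Ring.add_choose_eq (R := ℤ) (r := ((lo + b : ℕ) : ℤ)) (s := -(lo : ℤ)) j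
      (Commute.all _ _)
    rw [show ((lo + b : ℕ) : ℤ) + -(lo : ℤ) = ((b : ℕ) : ℤ) by push_cast; ring,
      Ring.choose_natCast] at h2
    rw [h2, Finset.Nat.sum_antidiagonal_eq_sum_range_succ_mk]
    refine Finset.sum_congr rfl fun i _ => ?_
    rw [Ring.choose_natCast]
  have h3 : ∑ i ∈ range (D + 1), ((-1) ^ lo * ∑ j ∈ range (D + 1),
      if i ≤ j then (-2) ^ j * Ring.choose (-(lo : ℤ)) (j - i) else 0) * ((lo + b).choose i : ℤ) =
      (-1) ^ lo * ∑ j ∈ range (D + 1), (-2) ^ j * (b.choose j : ℤ) := by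
    simp_rw [mul_assoc, ← Finset.mul_sum, Finset.sum_mul]
    rw [Finset.sum_comm]
    congr 1
    refine Finset.sum_congr rfl fun j hj => ?_
    have hjD : j < D + 1 := Finset.mem_range.mp hj
    rw [← h1 j, Finset.mul_sum]
    symm
    rw [← Finset.sum_subset (Finset.range_subset_range.mpr (by omega : j + 1 ≤ D + 1))]
    · refine Finset.sum_congr rfl fun i hi => ?_
      have : i ≤ j := by have := Finset.mem_range.mp hi; omega
      rw [if_pos this]; ring
    · intro i _ hi
      have : ¬ i ≤ j := fun h => hi (Finset.mem_range.mpr (by omega))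
      rw [if_neg this, zero_mul]
  rw [h3]
  have h4 : ∑ j ∈ range (D + 1), (-2 : ℤ) ^ j * (b.choose j : ℤ) = (-1) ^ b := by
    have h5 : (-1 : ℤ) ^ b = ((-2) + 1) ^ b := by norm_num
    rw [h5, add_pow, ← Finset.sum_subset (Finset.range_subset_range.mpr (by omega : b + 1 ≤ D + 1))]
    · refine Finset.sum_congr rfl fun j _ => ?_
      rw [one_pow, mul_one]
    · intro j _ hj
      have : b < j := by
        by_contra h
        exact hj (Finset.mem_range.mpr (by omega))
      rw [Nat.choose_eq_zero_of_lt this]; simp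
  rw [h4, pow_add]

end Pool.Agent.H422R3.Rig
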